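import Pool.Agent.H26.Pl.FldCell

/-!
# Boxes, counting, parameters
-/

open MeasureTheory
open scoped ComplexConjugate

namespace Pool.Agent.H67.Pl

namespace Fld26

/-- The box of a cell and an arc. -/
def box (s : ℝ) (i : (ℤ × ℤ) × ℕ) : Set (ℂ × ℝ) :=
  sq (kp s i.1) s ×ˢ Set.Ico ((i.2 : ℝ) * s) ((i.2 : ℝ) * s + s)

theorem floor_eq_of_mem {s : ℝ} (hs : 0 < s) {φ : ℝ} {j : ℕ} (h1 : (j : ℝ) * s ≤ φ)
    (h2 : φ < (j : ℝ) * s + s) : ⌊φ / s⌋ = (j : ℤ) := by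
  rw [Int.floor_eq_iff, le_div_iff₀ hs, div_lt_iff₀ hs]
  push_cast
  constructor <;> nlinarith

theorem disjoint_box {s : ℝ} (hs : 0 < s) {i i' : (ℤ × ℤ) × ℕ} (h : i ≠ i') :
    Disjoint (box s i) (box s i') := by
  rw [Set.disjoint_left]
  rintro ⟨x, φ⟩ ⟨h1, h2, h3⟩ ⟨h4, h5, h6⟩
  apply h
  have e1 := (mem_sq_iff hs x i.1).mp h1
  have e2 := (mem_sq_iff hs x i'.1).mp h4
  have e3 := floor_eq_of_mem hs h2 h3
  have e4 := floor_eq_of_mem hs h5 h6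
  refine Prod.ext (e1.symm.trans e2) ?_
  have : (i.2 : ℤ) = (i'.2 : ℤ) := e3.symm.trans e4
  exact_mod_cast this

theorem measurableSet_box (s : ℝ) (i : (ℤ × ℤ) × ℕ) : MeasurableSet (box s i) :=
  (measurableSet_sq _ _).prod measurableSet_Ico

theorem volume_box {s : ℝ} (hs : 0 < s) (i : (ℤ × ℤ) × ℕ) :
    volume (box s i) = ENNReal.ofReal (s ^ 3) := by
  unfold box
  rw [Measure.volume_eq_prod, Measure.prod_prod, volume_sq _ hs.le, Real.volume_Ico,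
    ← ENNReal.ofReal_mul (by positivity)]
  congr 1
  ring

theorem volume_biUnion_box {s : ℝ} (hs : 0 < s) (P : Finset ((ℤ × ℤ) × ℕ)) :
    volume (⋃ i ∈ P, box s i) = ENNReal.ofReal ((P.card : ℝ) * s ^ 3) := by
  rw [measure_biUnion_finset (fun i _ i' _ h => disjoint_box hs h)
    (fun i _ => measurableSet_box s i)]
  rw [Finset.sum_congr rfl (fun i _ => volume_box hs i), Finset.sum_const, nsmul_eq_mul,
    ENNReal.ofReal_mul (by positivity), ENNReal.ofReal_natCast]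

open Classical in
theorem card_pairs (A : Finset (ℤ × ℤ)) (n : ℕ) (T : ℤ × ℤ → Finset ℕ)
    (hT : ∀ k ∈ A, T k ⊆ Finset.range n) :
    ((A ×ˢ Finset.range n).filter (fun i => i.2 ∈ T i.1)).card = ∑ k ∈ A, (T k).card := by
  rw [Finset.card_filter, Finset.sum_product]
  refine Finset.sum_congr rfl (fun k hk => ?_)
  rw [← Finset.card_filter]
  congr 1
  ext j
  simp only [Finset.mem_filter]
  exact ⟨fun h => h.2, fun h => ⟨hT k hk h, h⟩⟩

/-- The cells which meet the unit square. -/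
noncomputable def KK (s : ℝ) : Finset (ℤ × ℤ) :=
  Finset.Icc (0 : ℤ) ⌊1 / s⌋ ×ˢ Finset.Icc (0 : ℤ) ⌊1 / s⌋

theorem cell_mem_KK {s : ℝ} (hs : 0 < s) {x : ℂ} (hx : x ∈ sq 0 1) : cell s x ∈ KK s := by
  obtain ⟨h1, h2, h3, h4⟩ := hx
  simp only [Complex.zero_re, Complex.zero_im, zero_add] at h1 h2 h3 h4
  simp only [KK, cell, Finset.mem_product, Finset.mem_Icc]
  refine ⟨⟨Int.floor_nonneg.mpr (by positivity), Int.floor_le_floor (by gcongr)⟩,
    ⟨Int.floor_nonneg.mpr (by positivity), Int.floor_le_floor (by gcongr)⟩⟩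

theorem KK_sub {s : ℝ} (hs : 0 < s) (hs1 : s ≤ 1) {k : ℤ × ℤ} (hk : k ∈ KK s) {x : ℂ}
    (hx : x ∈ sq (kp s k) s) : x ∈ sq (-1 - Complex.I) 3 := by
  simp only [KK, Finset.mem_product, Finset.mem_Icc] at hk
  obtain ⟨⟨a1, a2⟩, a3, a4⟩ := hk
  have b1 : (0 : ℝ) ≤ (k.1 : ℝ) := by exact_mod_cast a1
  have b3 : (0 : ℝ) ≤ (k.2 : ℝ) := by exact_mod_cast a3
  have b2 : (k.1 : ℝ) ≤ 1 / s := Int.le_floor.mp a2
  have b4 : (k.2 : ℝ) ≤ 1 / s := Int.le_floor.mp a4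
  have c2 : s * (k.1 : ℝ) ≤ 1 := by
    calc s * (k.1 : ℝ) ≤ s * (1 / s) := mul_le_mul_of_nonneg_left b2 hs.le
      _ = 1 := by field_simp
  have c4 : s * (k.2 : ℝ) ≤ 1 := by
    calc s * (k.2 : ℝ) ≤ s * (1 / s) := mul_le_mul_of_nonneg_left b4 hs.le
      _ = 1 := by field_simp
  have c1 : 0 ≤ s * (k.1 : ℝ) := by positivity
  have c3 : 0 ≤ s * (k.2 : ℝ) := by positivity
  obtain ⟨h1, h2, h3, h4⟩ := hx
  simp only [kp] at h1 h2 h3 h4
  simp only [sq, Set.mem_ofPred_eq, Complex.sub_re, Complex.neg_re, Complex.one_re, Complex.I_re,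
    Complex.sub_im, Complex.neg_im, Complex.one_im, Complex.I_im]
  refine ⟨?_, ?_, ?_, ?_⟩ <;> linarith

theorem KK_card {s : ℝ} (hs : 0 < s) (hs1 : s ≤ 1) : ((KK s).card : ℝ) * s ^ 2 ≤ 4 := by
  unfold KK
  rw [Finset.card_product, Int.card_Icc]
  have h0 : 0 ≤ ⌊1 / s⌋ := Int.floor_nonneg.mpr (by positivity)
  have h1 : (((⌊1 / s⌋ + 1 - 0).toNat : ℕ) : ℝ) ≤ 1 / s + 1 := by
    have h2 : (((⌊1 / s⌋ + 1 - 0).toNat : ℕ) : ℤ) = ⌊1 / s⌋ + 1 := by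
      rw [Int.toNat_of_nonneg (by omega)]
      ring
    have h3 : (((⌊1 / s⌋ + 1 - 0).toNat : ℕ) : ℝ) = (⌊1 / s⌋ : ℝ) + 1 := by
      exact_mod_cast h2
    rw [h3]
    linarith [Int.floor_le (1 / s)]
  push_cast
  set N : ℝ := (((⌊1 / s⌋ + 1 - 0).toNat : ℕ) : ℝ)
  have hN : 0 ≤ N := Nat.cast_nonneg _
  have h4 : N * s ≤ 2 := by
    calc N * s ≤ (1 / s + 1) * s := mul_le_mul_of_nonneg_right h1 hs.le
      _ = 1 + s := by field_simp
      _ ≤ 2 := by linarith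
  have h5 : 0 ≤ N * s := by positivity
  calc N * N * s ^ 2 = (N * s) * (N * s) := by ring
    _ ≤ 2 * 2 := mul_le_mul h4 h4 h5 (by norm_num)
    _ = 4 := by norm_num

theorem integral_cells {s : ℝ} (hs : 0 < s) (F : ℂ → ℂ) (hF : Integrable F)
    (h0 : ∀ x, x ∉ sq 0 1 → F x = 0) :
    ∫ x, F x = ∑ k ∈ KK s, ∫ x in sq (kp s k) s, F x := by
  rw [← integral_biUnion_finset (KK s) (fun k _ => measurableSet_sq _ _) ?_
    (fun k _ => hF.integrableOn)]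
  · symm
    apply setIntegral_eq_integral_of_forall_compl_eq_zero
    intro x hx
    apply h0
    intro hx1
    apply hx
    simp only [Set.mem_iUnion]
    exact ⟨cell s x, cell_mem_KK hs hx1, (mem_sq_iff hs x _).mpr rfl⟩
  · intro k _ k' _ hkk
    rw [Function.onFun, Set.disjoint_left]
    intro x h1 h2
    exact hkk (((mem_sq_iff hs x k).mp h1).symm.trans ((mem_sq_iff hs x k').mp h2))

/-- The choice of the number of arcs. -/
theorem exists_arcs (D m : ℝ) (C : ℕ) (hD : 2 ≤ D) (hm : 0 < m) (hm1 : m ≤ 1) :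
    ∃ (n : ℕ) (s : ℝ), 0 < s ∧ (n : ℝ) * s = 2 * Real.pi ∧ s ≤ m / D ^ C ∧
      m / (2 * D ^ C) ≤ s := by
  have hDC : 1 ≤ D ^ C := one_le_pow₀ (by linarith)
  have hpi := Real.pi_gt_three
  set t : ℝ := 2 * Real.pi * D ^ C / m with ht
  have ht1 : 1 ≤ t := by
    rw [ht, le_div_iff₀ hm]
    nlinarith
  have hn1 : t ≤ (⌈t⌉₊ : ℝ) := Nat.le_ceil t
  have hn2 : (⌈t⌉₊ : ℝ) < t + 1 := Nat.ceil_lt_add_one (by linarith)
  have hn0 : (0 : ℝ) < (⌈t⌉₊ : ℝ) := by linarith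
  refine ⟨⌈t⌉₊, 2 * Real.pi / (⌈t⌉₊ : ℝ), by positivity, by field_simp, ?_, ?_⟩
  · rw [div_le_div_iff₀ hn0 (by positivity)]
    have : 2 * Real.pi * D ^ C = m * t := by
      rw [ht]; field_simp
    rw [this]
    exact mul_le_mul_of_nonneg_left hn1 hm.le
  · rw [div_le_div_iff₀ (by positivity) hn0]
    have : 2 * Real.pi * (2 * D ^ C) = m * (2 * t) := by
      rw [ht]; field_simp
    rw [this]
    refine mul_le_mul_of_nonneg_left ?_ hm.le
    linarith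

theorem norm_cJ_le {η s : ℝ} (hη : 0 < η) (hs : 0 < s) (χ : ℂ) (φ₀ : ℝ) :
    ‖cJ η s χ φ₀‖ ≤ s := by
  unfold cJ
  have h := intervalIntegral.norm_integral_le_of_norm_le_const (a := 0) (b := η)
    (f := fun ρ => (qk η ρ : ℂ) * ∫ φ in φ₀..(φ₀ + s), cu (ip χ (((1 + ρ : ℝ) : ℂ) * cu φ)))
    (C := 1 / η * s) (by
      intro ρ _
      rw [norm_mul]
      have h2 := intervalIntegral.norm_integral_le_of_norm_le_const (a := φ₀) (b := φ₀ + s)
        (f := fun φ => cu (ip χ (((1 + ρ : ℝ) : ℂ) * cu φ))) (C := 1) (by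
          intro φ _
          rw [norm_cu])
      rw [one_mul, add_sub_cancel_left, abs_of_pos hs] at h2
      exact mul_le_mul (norm_qk_le η ρ hη) h2 (norm_nonneg _) (by positivity))
  refine h.trans (le_of_eq ?_)
  rw [sub_zero, abs_of_pos hη]
  field_simp

end Fld26

end Pool.Agent.H67.Pl
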