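import Pool.Agent.H26.Pl.FldDefs
import Pool.Agent.H67.Pl.Tools

/-!
# Cells, the expansion on a cell, the formula for good arcs
-/

open MeasureTheory
open scoped ComplexConjugate

namespace Pool.Agent.H67.Pl

namespace Fld26

theorem cu_add (s t : ℝ) : cu (s + t) = cu s * cu t := by
  unfold cu
  rw [← Complex.exp_add]
  push_cast
  ring_nf

theorem conj_cu (t : ℝ) : conj (cu t) = cu (-t) := by
  unfold cu
  rw [← Complex.exp_conj]
  simp

theorem continuous_cu : Continuous cu := by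
  unfold cu
  fun_prop

theorem ip_add_left (a b x : ℂ) : ip (a + b) x = ip a x + ip b x := by
  simp only [ip, Complex.add_re, Complex.add_im]
  ring

theorem ip_sub_left (a b x : ℂ) : ip (a - b) x = ip a x + - ip b x := by
  simp only [ip, Complex.sub_re, Complex.sub_im]
  ring

theorem ip_add_right (a x y : ℂ) : ip a (x + y) = ip a x + ip a y := by
  simp only [ip, Complex.add_re, Complex.add_im]
  ring

theorem ip_mul (a c v : ℂ) : ip a (c * v) = ip (conj c * a) v := by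
  simp only [ip, Complex.mul_re, Complex.mul_im, Complex.conj_re, Complex.conj_im]
  ring

theorem continuous_ip (a : ℂ) : Continuous (fun x : ℂ => ip a x) := by
  unfold ip
  fun_prop

theorem continuous_wave (a : ℂ) : Continuous (fun x : ℂ => cu (ip a x)) :=
  continuous_cu.comp (continuous_ip a)

/-- The lower left corner of a cell. -/
noncomputable def kp (s : ℝ) (k : ℤ × ℤ) : ℂ := ⟨s * k.1, s * k.2⟩

theorem mem_sq_iff {s : ℝ} (hs : 0 < s) (x : ℂ) (k : ℤ × ℤ) :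
    x ∈ sq (kp s k) s ↔ cell s x = k := by
  obtain ⟨k1, k2⟩ := k
  simp only [sq, Set.mem_ofPred_eq, cell, kp, Prod.mk.injEq, Int.floor_eq_iff, le_div_iff₀ hs,
    div_lt_iff₀ hs]
  constructor
  · rintro ⟨h1, h2, h3, h4⟩
    refine ⟨⟨?_, ?_⟩, ?_, ?_⟩ <;> nlinarith
  · rintro ⟨⟨h1, h2⟩, h3, h4⟩
    refine ⟨?_, ?_, ?_, ?_⟩ <;> nlinarith

theorem measurableSet_sq (p : ℂ) (r : ℝ) : MeasurableSet (sq p r) := by
  unfold sq
  have h1 := Complex.measurable_re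
  have h2 := Complex.measurable_im
  exact (measurableSet_le measurable_const h1).inter
    ((measurableSet_lt h1 measurable_const).inter
      ((measurableSet_le measurable_const h2).inter (measurableSet_lt h2 measurable_const)))

theorem volume_sq (p : ℂ) {r : ℝ} (hr : 0 ≤ r) : volume (sq p r) = ENNReal.ofReal (r ^ 2) := by
  have h : sq p r = Complex.measurableEquivRealProd ⁻¹'
      (Set.Ico p.re (p.re + r) ×ˢ Set.Ico p.im (p.im + r)) := by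
    ext z
    simp [sq, Complex.measurableEquivRealProd_apply, and_assoc]
  rw [h, Complex.volume_preserving_equiv_real_prod.measure_preimage
    ((measurableSet_Ico.prod measurableSet_Ico).nullMeasurableSet), Measure.volume_eq_prod,
    Measure.prod_prod, Real.volume_Ico, Real.volume_Ico, ← ENNReal.ofReal_mul (by linarith)]
  congr 1
  ring

theorem real_sq (p : ℂ) {r : ℝ} (hr : 0 ≤ r) : volume.real (sq p r) = r ^ 2 := by
  rw [Measure.real, volume_sq p hr, ENNReal.toReal_ofReal (by positivity)]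

theorem norm_sub_le_of_mem_sq {p z z' : ℂ} {r : ℝ} (h : z ∈ sq p r) (h' : z' ∈ sq p r) :
    ‖z - z'‖ ≤ 2 * r := by
  obtain ⟨a1, a2, a3, a4⟩ := h
  obtain ⟨b1, b2, b3, b4⟩ := h'
  refine (Complex.norm_le_abs_re_add_abs_im _).trans ?_
  have h1 : |(z - z').re| ≤ r := by
    rw [Complex.sub_re, abs_le]; constructor <;> linarith
  have h2 : |(z - z').im| ≤ r := by
    rw [Complex.sub_im, abs_le]; constructor <;> linarith
  linarith

/-- Cauchy-Schwarz on a square. -/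
theorem sq_integral_le (p : ℂ) {s : ℝ} (hs : 0 < s) (h : ℂ → ℝ)
    (hi : IntegrableOn h (sq p s)) (hi2 : IntegrableOn (fun x => h x ^ 2) (sq p s)) :
    (∫ x in sq p s, h x) ^ 2 ≤ s ^ 2 * ∫ x in sq p s, h x ^ 2 := by
  set A := ∫ x in sq p s, h x with hA
  have hc : IntegrableOn (fun _ : ℂ => (A / s ^ 2) ^ 2) (sq p s) := by
    rw [integrableOn_const_iff]
    right
    rw [volume_sq p hs.le]
    exact ENNReal.ofReal_lt_top
  have h1 : 0 ≤ ∫ x in sq p s, (h x - A / s ^ 2) ^ 2 :=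
    integral_nonneg (fun x => sq_nonneg _)
  have h2 : ∫ x in sq p s, (h x - A / s ^ 2) ^ 2 =
      (∫ x in sq p s, h x ^ 2) - 2 * (A / s ^ 2) * A + (A / s ^ 2) ^ 2 * s ^ 2 := by
    have e : ∀ x, (h x - A / s ^ 2) ^ 2 =
        h x ^ 2 - 2 * (A / s ^ 2) * h x + (A / s ^ 2) ^ 2 := fun x => by ring
    simp only [e]
    have hcm : IntegrableOn (fun x => 2 * (A / s ^ 2) * h x) (sq p s) := hi.const_mul _
    have hsub : IntegrableOn (fun x => h x ^ 2 - 2 * (A / s ^ 2) * h x) (sq p s) := hi2.sub hcm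
    rw [integral_add hsub hc, integral_sub hi2 hcm,
      integral_const_mul, ← hA, setIntegral_const, real_sq p hs.le, smul_eq_mul]
    ring
  rw [h2] at h1
  have hs2 : 0 < s ^ 2 := by positivity
  have h3 : (∫ x in sq p s, h x ^ 2) - 2 * (A / s ^ 2) * A + (A / s ^ 2) ^ 2 * s ^ 2 =
      (∫ x in sq p s, h x ^ 2) - A ^ 2 / s ^ 2 := by
    field_simp
    ring
  rw [h3, sub_nonneg, div_le_iff₀ hs2] at h1
  linarith

/-- The expansion on a cell. -/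
theorem cell_est (p : ℂ) {s : ℝ} (hs : 0 < s) (J : Finset ℕ) (g ζ : ℕ → ℂ) (f : ℂ → ℂ)
    (hf1 : ∀ x, ‖f x‖ ≤ 1) :
    ‖∫ x in sq p s, f x * ∑ j ∈ J, g j * cu (ip (ζ j) x)‖ ^ 2 ≤
      s ^ 2 * ∑ j ∈ J, ∑ j' ∈ J, ‖g j‖ * ‖g j'‖ * ‖∫ x in sq p s, cu (ip (ζ j - ζ j') x)‖ := by
  have hfin : volume (sq p s) ≠ ⊤ := by
    rw [volume_sq p hs.le]; exact ENNReal.ofReal_ne_top
  set H : ℂ → ℂ := fun x => ∑ j ∈ J, g j * cu (ip (ζ j) x) with hH
  have hHc : Continuous H := by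
    rw [hH]
    exact continuous_finsetSum _ (fun j _ => continuous_const.mul (continuous_wave _))
  have hHb : ∀ x, ‖H x‖ ≤ ∑ j ∈ J, ‖g j‖ := by
    intro x
    refine (norm_sum_le _ _).trans (Finset.sum_le_sum (fun j _ => ?_))
    rw [norm_mul, norm_cu, mul_one]
  have hi1 : IntegrableOn (fun x => ‖H x‖) (sq p s) := by
    refine Measure.integrableOn_of_bounded (M := ∑ j ∈ J, ‖g j‖) hfin
      hHc.norm.aestronglyMeasurable (Filter.Eventually.of_forall (fun x => ?_))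
    rw [norm_norm]
    exact hHb x
  have hi2 : IntegrableOn (fun x => ‖H x‖ ^ 2) (sq p s) := by
    refine Measure.integrableOn_of_bounded (M := (∑ j ∈ J, ‖g j‖) ^ 2) hfin
      (hHc.norm.pow 2).aestronglyMeasurable (Filter.Eventually.of_forall (fun x => ?_))
    rw [norm_pow, norm_norm]
    exact pow_le_pow_left₀ (norm_nonneg _) (hHb x) 2
  have h1 : ‖∫ x in sq p s, f x * H x‖ ≤ ∫ x in sq p s, ‖H x‖ := by
    refine norm_integral_le_of_norm_le hi1 (Filter.Eventually.of_forall (fun x => ?_))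
    rw [norm_mul]
    have := hf1 x
    nlinarith [norm_nonneg (H x), norm_nonneg (f x)]
  have h2 := sq_integral_le p hs (fun x => ‖H x‖) hi1 hi2
  have h3 : ∫ x in sq p s, ‖H x‖ ^ 2 ≤
      ∑ j ∈ J, ∑ j' ∈ J, ‖g j‖ * ‖g j'‖ * ‖∫ x in sq p s, cu (ip (ζ j - ζ j') x)‖ := by
    have e1 : ((∫ x in sq p s, ‖H x‖ ^ 2 : ℝ) : ℂ) =
        ∑ j ∈ J, ∑ j' ∈ J, g j * conj (g j') * ∫ x in sq p s, cu (ip (ζ j - ζ j') x) := by
      rw [← integral_complex_ofReal]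
      have e2 : ∀ x, ((‖H x‖ ^ 2 : ℝ) : ℂ) =
          ∑ j ∈ J, ∑ j' ∈ J, g j * conj (g j') * cu (ip (ζ j - ζ j') x) := by
        intro x
        rw [← Complex.normSq_eq_norm_sq, ← Complex.mul_conj, hH]
        simp only
        rw [map_sum, Finset.sum_mul_sum]
        refine Finset.sum_congr rfl (fun j _ => Finset.sum_congr rfl (fun j' _ => ?_))
        rw [map_mul, conj_cu, ip_sub_left, cu_add]
        ring
      simp only [e2]
      have hint : ∀ j j' : ℕ, IntegrableOn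
          (fun x => g j * conj (g j') * cu (ip (ζ j - ζ j') x)) (sq p s) := by
        intro j j'
        refine Measure.integrableOn_of_bounded (M := ‖g j * conj (g j')‖) hfin
          (continuous_const.mul (continuous_wave _)).aestronglyMeasurable
          (Filter.Eventually.of_forall (fun x => ?_))
        rw [norm_mul, norm_cu, mul_one]
      rw [integral_finsetSum _ (fun j _ => integrable_finsetSum _ (fun j' _ => hint j j'))]
      refine Finset.sum_congr rfl (fun j _ => ?_)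
      rw [integral_finsetSum _ (fun j' _ => hint j j')]
      refine Finset.sum_congr rfl (fun j' _ => ?_)
      rw [integral_const_mul]
    have e3 : ∫ x in sq p s, ‖H x‖ ^ 2 = ‖((∫ x in sq p s, ‖H x‖ ^ 2 : ℝ) : ℂ)‖ := by
      rw [Complex.norm_real, Real.norm_eq_abs, abs_of_nonneg]
      exact integral_nonneg (fun x => by positivity)
    rw [e3, e1]
    refine (norm_sum_le _ _).trans (Finset.sum_le_sum (fun j _ => ?_))
    refine (norm_sum_le _ _).trans (Finset.sum_le_sum (fun j' _ => ?_))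
    rw [norm_mul, norm_mul, Complex.norm_conj]
  calc ‖∫ x in sq p s, f x * H x‖ ^ 2 ≤ (∫ x in sq p s, ‖H x‖) ^ 2 :=
        pow_le_pow_left₀ (norm_nonneg _) h1 2
    _ ≤ s ^ 2 * ∫ x in sq p s, ‖H x‖ ^ 2 := h2
    _ ≤ _ := mul_le_mul_of_nonneg_left h3 (by positivity)

/-- The value of a truncated plane wave when the cell and the side of the circle are known. -/
theorem bind_pw_eq (R : ℝ) (p : ℂ) (m : ℝ) (ξ α : ℤ × ℤ → ℂ) (y : ℂ) (k : ℤ × ℤ) (q : Prop)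
    [Decidable q] (hk : cell m (y - p) = k) (hq : ‖y‖ ≤ R ↔ q) :
    bind R (pw p m ξ α) y = (if q then α k else 0) * cu (ip (ξ k) y) := by
  unfold bind pw cu
  rw [hk]
  by_cases h : ‖y‖ ≤ R
  · rw [if_pos h, if_pos (hq.mp h)]
  · rw [if_neg h, if_neg (fun h' => h (hq.mpr h')), zero_mul]

/-- The formula for a good arc. -/
theorem good_formula (a₁ a₂ : ℂ) (R η s : ℝ) (hη : 0 < η) (hs : 0 < s) (p₁ p₂ : ℂ) (m₁ m₂ : ℝ)
    (ξ₁ α₁ ξ₂ α₂ : ℤ × ℤ → ℂ) (hα₁ : ∀ k, ‖α₁ k‖ ≤ 1) (hα₂ : ∀ k, ‖α₂ k‖ ≤ 1) (j : ℕ)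
    (Q : Set ℂ) (k₁ k₂ : ℤ × ℤ) (q₁ q₂ : Prop)
    (h : ∀ x ∈ Q, ∀ φ, (j : ℝ) * s ≤ φ → φ ≤ (j : ℝ) * s + s → ∀ ρ, 0 ≤ ρ → ρ ≤ η →
      cell m₁ (x + a₁ * ((1 + ρ : ℝ) : ℂ) * cu φ - p₁) = k₁ ∧
      cell m₂ (x + a₂ * ((1 + ρ : ℝ) : ℂ) * cu φ - p₂) = k₂ ∧
      (‖x + a₁ * ((1 + ρ : ℝ) : ℂ) * cu φ‖ ≤ R ↔ q₁) ∧
      (‖x + a₂ * ((1 + ρ : ℝ) : ℂ) * cu φ‖ ≤ R ↔ q₂)) :
    ∃ γ : ℂ, ‖γ‖ ≤ 1 ∧ ∀ x ∈ Q,
      Aj a₁ a₂ η s (bind R (pw p₁ m₁ ξ₁ α₁)) (bind R (pw p₂ m₂ ξ₂ α₂)) j x =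
        γ * cJ η s (conj a₁ * ξ₁ k₁ + conj a₂ * ξ₂ k₂) ((j : ℝ) * s) *
          cu (ip (ξ₁ k₁ + ξ₂ k₂) x) := by
  classical
  refine ⟨(if q₁ then α₁ k₁ else 0) * (if q₂ then α₂ k₂ else 0), ?_, ?_⟩
  · rw [norm_mul]
    have e1 : ‖(if q₁ then α₁ k₁ else 0)‖ ≤ 1 := by
      split_ifs
      · exact hα₁ _
      · simp
    have e2 : ‖(if q₂ then α₂ k₂ else 0)‖ ≤ 1 := by
      split_ifs
      · exact hα₂ _
      · simp
    exact mul_le_one₀ e1 (norm_nonneg _) e2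
  intro x hx
  set γ := (if q₁ then α₁ k₁ else 0) * (if q₂ then α₂ k₂ else 0) with hγ
  set ζ := ξ₁ k₁ + ξ₂ k₂ with hζ
  set χ := conj a₁ * ξ₁ k₁ + conj a₂ * ξ₂ k₂ with hχ
  have key : ∀ φ, (j : ℝ) * s ≤ φ → φ ≤ (j : ℝ) * s + s → ∀ ρ, 0 ≤ ρ → ρ ≤ η →
      bind R (pw p₁ m₁ ξ₁ α₁) (x + a₁ * ((1 + ρ : ℝ) : ℂ) * cu φ) *
        bind R (pw p₂ m₂ ξ₂ α₂) (x + a₂ * ((1 + ρ : ℝ) : ℂ) * cu φ) =
      γ * cu (ip ζ x) * cu (ip χ (((1 + ρ : ℝ) : ℂ) * cu φ)) := by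
    intro φ h1 h2 ρ h3 h4
    obtain ⟨c1, c2, c3, c4⟩ := h x hx φ h1 h2 ρ h3 h4
    rw [bind_pw_eq R p₁ m₁ ξ₁ α₁ _ k₁ q₁ c1 c3, bind_pw_eq R p₂ m₂ ξ₂ α₂ _ k₂ q₂ c2 c4]
    have e : cu (ip ζ x) * cu (ip χ (((1 + ρ : ℝ) : ℂ) * cu φ)) =
        cu (ip (ξ₁ k₁) (x + a₁ * ((1 + ρ : ℝ) : ℂ) * cu φ)) *
          cu (ip (ξ₂ k₂) (x + a₂ * ((1 + ρ : ℝ) : ℂ) * cu φ)) := by
      rw [← cu_add, ← cu_add]
      congr 1
      rw [hζ, hχ, ip_add_left, ip_add_left, ip_add_right, ip_add_right, ← ip_mul, ← ip_mul,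
        mul_assoc, mul_assoc]
      ring
    rw [hγ, mul_assoc _ (cu (ip ζ x)), e]
    ring
  unfold Aj cJ
  have hsj : (j : ℝ) * s ≤ (j : ℝ) * s + s := by linarith
  have step : ∀ ρ ∈ Set.uIcc 0 η, (qk η ρ : ℂ) * (∫ φ in ((j : ℝ) * s)..((j : ℝ) * s + s),
      bind R (pw p₁ m₁ ξ₁ α₁) (x + a₁ * ((1 + ρ : ℝ) : ℂ) * cu φ) *
        bind R (pw p₂ m₂ ξ₂ α₂) (x + a₂ * ((1 + ρ : ℝ) : ℂ) * cu φ)) =
      (γ * cu (ip ζ x)) * ((qk η ρ : ℂ) * ∫ φ in ((j : ℝ) * s)..((j : ℝ) * s + s),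
        cu (ip χ (((1 + ρ : ℝ) : ℂ) * cu φ))) := by
    intro ρ hρ
    rw [Set.uIcc_of_le hη.le] at hρ
    have e : (∫ φ in ((j : ℝ) * s)..((j : ℝ) * s + s),
      bind R (pw p₁ m₁ ξ₁ α₁) (x + a₁ * ((1 + ρ : ℝ) : ℂ) * cu φ) *
        bind R (pw p₂ m₂ ξ₂ α₂) (x + a₂ * ((1 + ρ : ℝ) : ℂ) * cu φ)) =
        ∫ φ in ((j : ℝ) * s)..((j : ℝ) * s + s),
          γ * cu (ip ζ x) * cu (ip χ (((1 + ρ : ℝ) : ℂ) * cu φ)) := by
      apply intervalIntegral.integral_congr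
      intro φ hφ
      rw [Set.uIcc_of_le hsj] at hφ
      exact key φ hφ.1 hφ.2 ρ hρ.1 hρ.2
    rw [e, intervalIntegral.integral_const_mul]
    ring
  rw [intervalIntegral.integral_congr step, intervalIntegral.integral_const_mul]
  ring

end Fld26

end Pool.Agent.H67.Pl
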