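import Pool.Agent.H67.Pl.Basic

/-!
# Definitions for the module Fields
-/

open MeasureTheory
open scoped ComplexConjugate

namespace Pool.Agent.H67.Pl

/-- The contribution of the arc `[j s, j s + s]` to the dual function at the vertex `x`. -/
noncomputable def Aj (a₁ a₂ : ℂ) (η s : ℝ) (F₁ F₂ : ℂ → ℂ) (j : ℕ) (x : ℂ) : ℂ :=
  ∫ ρ in (0 : ℝ)..η, (qk η ρ : ℂ) * ∫ φ in ((j : ℝ) * s)..((j : ℝ) * s + s),
    F₁ (x + a₁ * ((1 + ρ : ℝ) : ℂ) * cu φ) * F₂ (x + a₂ * ((1 + ρ : ℝ) : ℂ) * cu φ)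

/-- The coefficient of the arc `[φ₀, φ₀ + s]` for the frequency `χ`. -/
noncomputable def cJ (η s : ℝ) (χ : ℂ) (φ₀ : ℝ) : ℂ :=
  ∫ ρ in (0 : ℝ)..η, (qk η ρ : ℂ) * ∫ φ in φ₀..(φ₀ + s), cu (ip χ (((1 + ρ : ℝ) : ℂ) * cu φ))

end Pool.Agent.H67.Pl
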